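import Pool.Agent.K4W.StmtsF

/-! Row CL2 of squad K4W: the second cusp. -/

open scoped Classical

namespace Pool.Agent.K4W.H48

open Pool.Agent.K4W
open Pool.Agent.Helper69_Weyl (ee W)
open Pool.Agent.VM (Nr)

/-- the numerical part -/
theorem cl2_num (z N Q X R η c : ℝ) (hz : 18432 ≤ z) (hN1 : z ^ 64000 ≤ N)
    (hN2 : N ≤ 2 * z ^ 64000) (hQ1 : z ^ 111900 ≤ Q) (hQ2 : Q ≤ z ^ 144200)
    (hX : X = 8 * z ^ 127002) (hR : R = 2 * N * z ^ 84) (hη : η = z ^ 170 / (z ^ 1000 * N))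
    (hc : c ≤ z * (768 * (R * X / Q + 1) * (η * Q + 1))) : c * (3 * z ^ 164) ≤ X := by
  have hz1 : 1 ≤ z := by linarith
  have hz0 : 0 < z := by linarith
  have hN0 : 0 < N := lt_of_lt_of_le (pow_pos hz0 _) hN1
  have hQ0 : 0 < Q := lt_of_lt_of_le (pow_pos hz0 _) hQ1
  have hX0 : 0 < X := by rw [hX]; positivity
  have e1 : R * X * η * z ^ 746 = 2 * X := by
    rw [hR, hη]
    have : z ^ 1000 = z ^ 84 * z ^ 170 * z ^ 746 := by ring
    rw [this]
    field_simp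
  have e2 : R * X / Q * z ^ 746 ≤ 4 * X := by
    rw [div_mul_eq_mul_div, div_le_iff₀ hQ0, hR]
    have h1 : z ^ 64830 ≤ z ^ 111900 := pow_le_pow_right₀ hz1 (by norm_num)
    have h2 : N * (z ^ 84 * z ^ 746) ≤ 2 * Q := by
      calc N * (z ^ 84 * z ^ 746) ≤ (2 * z ^ 64000) * (z ^ 84 * z ^ 746) := by gcongr
        _ = 2 * z ^ 64830 := by ring
        _ ≤ 2 * z ^ 111900 := by linarith
        _ ≤ 2 * Q := by linarith
    calc 2 * N * z ^ 84 * X * z ^ 746 = (N * (z ^ 84 * z ^ 746)) * (2 * X) := by ring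
      _ ≤ (2 * Q) * (2 * X) := by gcongr
      _ = 4 * X * Q := by ring
  have e3 : η * Q * z ^ 746 ≤ X := by
    rw [hη, div_mul_eq_mul_div, div_mul_eq_mul_div, div_le_iff₀ (by positivity)]
    have h1 : z ^ 145116 ≤ z ^ 192002 := pow_le_pow_right₀ hz1 (by norm_num)
    have h3 : 0 ≤ z ^ 192002 := by positivity
    calc z ^ 170 * Q * z ^ 746 ≤ z ^ 170 * z ^ 144200 * z ^ 746 := by gcongr
      _ = z ^ 145116 := by ring
      _ ≤ z ^ 192002 := h1
      _ ≤ 8 * z ^ 192002 := by linarith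
      _ = 8 * z ^ 127002 * (z ^ 1000 * z ^ 64000) := by ring
      _ ≤ X * (z ^ 1000 * N) := by rw [hX]; gcongr
  have e4 : z ^ 746 ≤ X := by
    have h1 : z ^ 746 ≤ z ^ 127002 := pow_le_pow_right₀ hz1 (by norm_num)
    have h3 : 0 ≤ z ^ 127002 := by positivity
    rw [hX]
    linarith
  have e5 : (R * X / Q + 1) * (η * Q + 1) * z ^ 746 ≤ 8 * X := by
    have h1 : (R * X / Q + 1) * (η * Q + 1) * z ^ 746 =
        R * X * η * z ^ 746 + R * X / Q * z ^ 746 + η * Q * z ^ 746 + z ^ 746 := by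
      field_simp
      ring
    rw [h1]
    linarith
  have e6 : c * z ^ 746 ≤ 6144 * z * X := by
    calc c * z ^ 746 ≤ z * (768 * (R * X / Q + 1) * (η * Q + 1)) * z ^ 746 := by gcongr
      _ = 768 * z * ((R * X / Q + 1) * (η * Q + 1) * z ^ 746) := by ring
      _ ≤ 768 * z * (8 * X) := by gcongr
      _ = 6144 * z * X := by ring
  have h582 : 0 < z ^ 582 := by positivity
  have e7 : c * (3 * z ^ 164) * z ^ 582 ≤ X * z ^ 582 := by
    have h1 : z ^ 2 ≤ z ^ 582 := pow_le_pow_right₀ hz1 (by norm_num)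
    calc c * (3 * z ^ 164) * z ^ 582 = 3 * (c * z ^ 746) := by ring
      _ ≤ 3 * (6144 * z * X) := by gcongr
      _ = 18432 * z * X := by ring
      _ ≤ z * z * X := by gcongr
      _ = X * z ^ 2 := by ring
      _ ≤ X * z ^ 582 := by gcongr
  exact le_of_mul_le_mul_right e7 h582

theorem cl2 (csp : CspStmt) : Cl2Stmt := by
  obtain ⟨Z₀, h⟩ := csp
  refine ⟨max Z₀ 18432, ?_⟩
  intro Z hZ N Q a t hP
  obtain ⟨hN1, hN2, hQ1, hQ2, hg, hta⟩ := hP
  have hZ0 : Z₀ ≤ Z := le_trans (le_max_left _ _) hZ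
  have hZb : 18432 ≤ Z := le_trans (le_max_right _ _) hZ
  have hZ1 : 1 ≤ Z := by omega
  have hQpos : 1 ≤ Q := le_trans (Nat.one_le_pow _ _ hZ1) hQ1
  have hRX : 2 * N * Z ^ 84 * Xz Z ≤ Z ^ 300000 := by
    have h1 : Z ^ 191087 ≤ Z ^ 300000 := Nat.pow_le_pow_right hZ1 (by norm_num)
    unfold Xz
    calc 2 * N * Z ^ 84 * (8 * Z ^ 127002) ≤
        2 * (2 * Z ^ 64000) * Z ^ 84 * (8 * Z ^ 127002) := by gcongr
      _ = 32 * Z ^ 191086 := by ring
      _ ≤ Z * Z ^ 191086 := Nat.mul_le_mul_right _ (by omega)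
      _ = Z ^ 191087 := by ring
      _ ≤ Z ^ 300000 := h1
  have hmain := h Z hZ0 t ((Z : ℝ) ^ 170 / ((Z : ℝ) ^ 1000 * (N : ℝ))) a Q (2 * N * Z ^ 84) (Xz Z)
    hQpos hg hta (by positivity) hRX
  refine cl2_num (Z : ℝ) (N : ℝ) (Q : ℝ) (Xz Z : ℝ) ((2 * N * Z ^ 84 : ℕ) : ℝ) _ _
    (by exact_mod_cast hZb) (by exact_mod_cast hN1) (by exact_mod_cast hN2) (by exact_mod_cast hQ1)
    (by exact_mod_cast hQ2) (by unfold Xz; push_cast; rfl) (by push_cast; rfl) rfl hmain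

end Pool.Agent.K4W.H48
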