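import Pool.Agent.K4W.StmtsP

/-! Row GQ2 of squad K4W: Gauss sums modulo `p ^ 2 r`. -/

namespace Pool.Agent.K4W.H48

open Finset Pool.Agent.K4W
open Pool.Agent.Helper69_Weyl (ee)

theorem split_term (p r : ℕ) (hp : 0 < p) (hr : 0 < r) (a : ℤ) (x y : ℕ) :
    ee (((a * (((x + p * r * y : ℕ) : ℤ)) ^ 2 + 0 * (((x + p * r * y : ℕ) : ℤ)) : ℤ) : ℝ) /
        ((p ^ 2 * r : ℕ) : ℝ)) =
      ee (((a * (x : ℤ) ^ 2 : ℤ) : ℝ) / ((p ^ 2 * r : ℕ) : ℝ)) *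
        ee ((y : ℝ) / p * ((2 * a * (x : ℤ) : ℤ) : ℝ)) := by
  have hp0 : (p : ℝ) ≠ 0 := by exact_mod_cast hp.ne'
  have hr0 : (r : ℝ) ≠ 0 := by exact_mod_cast hr.ne'
  have h1 : ((a * (((x + p * r * y : ℕ) : ℤ)) ^ 2 + 0 * (((x + p * r * y : ℕ) : ℤ)) : ℤ) : ℝ) /
        ((p ^ 2 * r : ℕ) : ℝ) =
      (((a * (x : ℤ) ^ 2 : ℤ) : ℝ) / ((p ^ 2 * r : ℕ) : ℝ) +
        (y : ℝ) / p * ((2 * a * (x : ℤ) : ℤ) : ℝ)) + ((a * r * (y : ℤ) ^ 2 : ℤ) : ℝ) := by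
    push_cast
    field_simp
    ring
  rw [h1, Pool.Agent.Helper69_Weyl.ee_add, Pool.Agent.Helper69_Weyl.ee_add,
    Pool.Agent.Helper69_Weyl.ee_int, mul_one]

theorem range_split (n p : ℕ) (hn : 0 < n) (F : ℕ → ℂ) :
    ∑ c ∈ range (n * p), F c = ∑ x ∈ range n, ∑ y ∈ range p, F (x + n * y) := by
  rw [← Finset.sum_product']
  symm
  refine Finset.sum_nbij' (fun z => z.1 + n * z.2) (fun c => (c % n, c / n)) ?_ ?_ ?_ ?_ ?_
  · rintro ⟨x, y⟩ h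
    simp only [mem_product, mem_range] at h ⊢
    have h1 : n * (y + 1) ≤ n * p := Nat.mul_le_mul_left _ (by omega)
    rw [Nat.mul_add, Nat.mul_one] at h1
    omega
  · intro c h
    simp only [mem_product, mem_range] at h ⊢
    exact ⟨Nat.mod_lt _ hn, Nat.div_lt_of_lt_mul h⟩
  · rintro ⟨x, y⟩ h
    simp only [mem_product, mem_range] at h
    simp only [Prod.mk.injEq]
    constructor
    · rw [Nat.add_mul_mod_self_left, Nat.mod_eq_of_lt h.1]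
    · rw [Nat.add_mul_div_left _ _ hn, Nat.div_eq_of_lt h.1, Nat.zero_add]
  · intro c _
    exact Nat.mod_add_div c n
  · intro z _
    rfl

theorem gq2 : Gq2Stmt := by
  intro p r a hp hp2 hr hpa
  have hp0 : 0 < p := hp.pos
  have hpr : (p : ℝ) ≠ 0 := by exact_mod_cast hp0.ne'
  have hrr : (r : ℝ) ≠ 0 := by exact_mod_cast hr.ne'
  unfold GS
  have e0 : p ^ 2 * r = p * r * p := by ring
  have s1 : ∑ c ∈ range (p ^ 2 * r),
      ee (((a * (c : ℤ) ^ 2 + 0 * (c : ℤ) : ℤ) : ℝ) / ((p ^ 2 * r : ℕ) : ℝ)) =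
      ∑ x ∈ range (p * r), ∑ y ∈ range p,
        ee (((a * (x : ℤ) ^ 2 : ℤ) : ℝ) / ((p ^ 2 * r : ℕ) : ℝ)) *
        ee ((y : ℝ) / p * ((2 * a * (x : ℤ) : ℤ) : ℝ)) := by
    have h1 := range_split (p * r) p (Nat.mul_pos hp0 hr)
      (fun c => ee (((a * (c : ℤ) ^ 2 + 0 * (c : ℤ) : ℤ) : ℝ) / ((p ^ 2 * r : ℕ) : ℝ)))
    rw [← e0] at h1
    rw [h1]
    refine sum_congr rfl fun x _ => sum_congr rfl fun y _ => ?_
    exact split_term p r hp0 hr a x y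
  rw [s1]
  have s2 : ∀ x ∈ range (p * r), ∑ y ∈ range p,
        ee (((a * (x : ℤ) ^ 2 : ℤ) : ℝ) / ((p ^ 2 * r : ℕ) : ℝ)) *
        ee ((y : ℝ) / p * ((2 * a * (x : ℤ) : ℤ) : ℝ)) =
      if p ∣ x then (p : ℂ) * ee (((a * (x : ℤ) ^ 2 : ℤ) : ℝ) / ((p ^ 2 * r : ℕ) : ℝ)) else 0 := by
    intro x _
    rw [← Finset.mul_sum, Pool.Agent.Helper69_Weyl.sum_ee_div p hp0]
    have hiff : (p : ℤ) ∣ 2 * a * (x : ℤ) ↔ p ∣ x := by
      constructor
      · intro h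
        have hpz : Prime (p : ℤ) := Nat.prime_iff_prime_int.1 hp
        rcases hpz.dvd_or_dvd h with h1 | h1
        · rcases hpz.dvd_or_dvd h1 with h2 | h2
          · exfalso
            have h3 : p ∣ 2 := by exact_mod_cast h2
            exact hp2 ((Nat.prime_dvd_prime_iff_eq hp Nat.prime_two).1 h3)
          · exact absurd h2 hpa
        · exact_mod_cast h1
      · rintro ⟨c, rfl⟩
        exact ⟨2 * a * c, by push_cast; ring⟩
    by_cases hx : p ∣ x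
    · rw [if_pos (hiff.2 hx), if_pos hx, mul_comm]
    · rw [if_neg (fun h => hx (hiff.1 h)), if_neg hx, mul_zero]
  rw [sum_congr rfl s2]
  have h3 := range_split p r hp0 (fun x => if p ∣ x then
    (p : ℂ) * ee (((a * (x : ℤ) ^ 2 : ℤ) : ℝ) / ((p ^ 2 * r : ℕ) : ℝ)) else 0)
  rw [h3, Finset.sum_comm, Finset.mul_sum]
  refine sum_congr rfl fun y _ => ?_
  rw [Finset.sum_eq_single 0]
  · rw [if_pos (by simp)]
    congr 2
    push_cast
    field_simp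
    ring
  · intro x hx hx0
    rw [mem_range] at hx
    rw [if_neg]
    intro h
    have h4 : p ∣ x := (Nat.dvd_add_left (Dvd.intro _ rfl)).1 h
    exact hx0 (Nat.eq_zero_of_dvd_of_lt h4 hx)
  · intro h
    exact absurd (mem_range.2 hp0) h

end Pool.Agent.K4W.H48
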