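import Pool.Agent.K4W.StmtsU

/-! Row UCS of squad K4W: Cauchy's inequality over the residue classes. -/

namespace Pool.Agent.K4W.H48

open Pool.Agent.K4W
open Pool.Agent.Helper69_Weyl (ee W)

theorem ucs (ure : UreStmt) (uex : UexStmt) : UcsStmt := by
  intro f a b ha hb hf
  have s1 : Summable fun h : ℤ => Ut f 1 b h := (uex f 1 b le_rfl hb hf).1
  have s2 : Summable fun h : ℤ => Ut f a b h := (uex f a b ha hb hf).1
  have hU1 : U f 1 b = ∑' h : ℤ, Ut f 1 b h := rfl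
  have hU2 : U f a b = ∑' h : ℤ, Ut f a b h := rfl
  rw [hU1, hU2, ← tsum_mul_left]
  refine Summable.tsum_le_tsum ?_ s1 (s2.mul_left _)
  intro h
  set g : ℤ → ℂ := fun x => f x * (starRingEnd ℂ) (f (x + (b : ℤ) * h)) with hgdef
  have hg : Summable g := by
    refine Summable.of_norm_bounded (g := fun x => ‖f x‖ * ∑' y : ℤ, ‖f y‖) (hf.mul_right _) ?_
    intro x
    rw [hgdef]
    simp only [norm_mul, RCLike.norm_conj]
    refine mul_le_mul_of_nonneg_left ?_ (norm_nonneg _)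
    exact hf.le_tsum (x + (b : ℤ) * h) (fun _ _ => norm_nonneg _)
  have e1 : Ut f 1 b h = ‖∑' y : ℤ, g y‖ ^ 2 := by
    unfold Ut
    simp only [Finset.sum_range_one, Nat.cast_zero, Nat.cast_one, one_mul, zero_add, hgdef]
  have e2 := (ure g a ha hg).2
  have e3 : Ut f a b h = ∑ c ∈ Finset.range a, ‖∑' y : ℤ, g ((c : ℤ) + (a : ℤ) * y)‖ ^ 2 := rfl
  rw [e1, e2, e3]
  calc ‖∑ c ∈ Finset.range a, ∑' y : ℤ, g ((c : ℤ) + (a : ℤ) * y)‖ ^ 2
      ≤ (∑ c ∈ Finset.range a, ‖∑' y : ℤ, g ((c : ℤ) + (a : ℤ) * y)‖) ^ 2 := by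
        gcongr
        exact norm_sum_le _ _
    _ ≤ (a : ℝ) * ∑ c ∈ Finset.range a, ‖∑' y : ℤ, g ((c : ℤ) + (a : ℤ) * y)‖ ^ 2 := by
        have h1 := sq_sum_le_card_mul_sum_sq (s := Finset.range a)
          (f := fun c => ‖∑' y : ℤ, g ((c : ℤ) + (a : ℤ) * y)‖)
        rw [Finset.card_range] at h1
        exact h1

end Pool.Agent.K4W.H48
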